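import Mathlib
import Pool.Agent.Helper37.Blowup
import Pool.Agent.Helper37.Quadric

/-!
# Every del Pezzo surface satisfies strong interpolation

The definitions (`blowupDelPezzo`, `quadricDelPezzo`, `LambdaInterpolation`,
`StrongInterpolation`, ...) are in `Pool/Agent/Helper37/DPDefs.lean`.
-/

namespace Pool.Agent.Results.MP_d54ed7_ag.AllDelPezzo

open Pool.Agent.DelPezzo

/-- **Strong interpolation for all del Pezzo surfaces.** Over an algebraically closed field of
characteristic zero, the anticanonically embedded del Pezzo surfaces of every degree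
`3 ≤ d ≤ 9` that are blow-ups of the plane, and the anticanonically embedded
`ℙ¹ × ℙ¹ ⊂ ℙ⁸`, satisfy strong interpolation; the numbers `d ^ 2 + 10`
(`19, 26, 35, 46, 59, 74, 91`) and `74` are the dimensions of the components of the Hilbert
scheme. -/
theorem result (K : Type*) [Field K] [IsAlgClosed K] [CharZero K] :
    (∀ d : ℕ, 3 ≤ d → d ≤ 9 → StrongInterpolation (blowupDelPezzo K d) (d ^ 2 + 10)) ∧
      StrongInterpolation (quadricDelPezzo K) 74 := by
  refine ⟨fun d h3 h9 => ?_, strongQ K⟩
  interval_cases d
  · exact strong3 K
  · exact strong4 K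
  · exact strong5 K
  · exact strong6 K
  · exact strong7 K
  · exact strong8 K
  · exact strong9 K

end Pool.Agent.Results.MP_d54ed7_ag.AllDelPezzo
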